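import Mathlib

set_option autoImplicit false

open Finset

namespace Pool.Agent.P.MP_ca7dc8_pr

variable {X A : Type} [Fintype X] [DecidableEq X] [DecidableEq A]

/-- Number of walkers at site a. -/
def cnt (π : X → A) {n : ℕ} (f : Fin n → X) (a : A) : ℕ := ∑ i, if π (f i) = a then 1 else 0

omit [Fintype X] [DecidableEq X] in
theorem cnt_cons (π : X → A) {n : ℕ} (x : X) (f : Fin n → X) (a : A) :
    cnt π (Fin.cons x f : Fin (n + 1) → X) a = (if π x = a then 1 else 0) + cnt π f a := by
  unfold cnt
  rw [Fin.sum_univ_succ]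
  rfl

omit [DecidableEq X] in
theorem card_succ {n : ℕ} (P : (Fin (n + 1) → X) → Prop) [DecidablePred P] :
    #{f | P f} = ∑ x : X, #{f : Fin n → X | P (Fin.cons x f)} := by
  rw [card_eq_sum_ones, sum_filter, ← (Fin.consEquiv fun _ => X).sum_comp, Fintype.sum_prod_type]
  refine sum_congr rfl fun x _ => ?_
  rw [card_eq_sum_ones, sum_filter]
  rfl

theorem card_exact (π : X → A) (V : Finset A) (n : ℕ) : ∀ T ⊆ V,
    #{f : Fin n → X | ∀ a ∈ V, cnt π f a = if a ∈ T then 1 else 0} =
      n.descFactorial #T * (∏ a ∈ T, #{x | π x = a}) * #{x | π x ∉ V} ^ (n - #T) := by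
  induction n with
  | zero =>
    intro T hT
    rcases T.eq_empty_or_nonempty with rfl | ⟨a, ha⟩
    · simp [cnt]
    · have hk : #T ≠ 0 := card_ne_zero.2 ⟨a, ha⟩
      obtain ⟨k, hk'⟩ := Nat.exists_eq_succ_of_ne_zero hk
      rw [hk', Nat.zero_descFactorial_succ, zero_mul, zero_mul, card_eq_zero,
        filter_eq_empty_iff]
      intro f _ h
      have := h a (hT ha)
      simp [cnt, ha] at this
  | succ n ih =>
    intro T hT
    rw [card_succ]
    have key : ∀ x : X, #{f : Fin n → X | ∀ a ∈ V,
        cnt π (Fin.cons x f : Fin (n + 1) → X) a = if a ∈ T then 1 else 0} =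
        (if π x ∉ V then n.descFactorial #T * (∏ a ∈ T, #{x | π x = a}) *
          #{x | π x ∉ V} ^ (n - #T) else 0) +
        ∑ b ∈ T, if π x = b then n.descFactorial (#T - 1) * (∏ a ∈ T.erase b, #{x | π x = a}) *
          #{x | π x ∉ V} ^ (n - (#T - 1)) else 0 := by
      intro x
      rw [sum_ite_eq]
      by_cases hV : π x ∈ V
      · by_cases hx : π x ∈ T
        · rw [if_neg (not_not.2 hV), if_pos hx, zero_add, ← card_erase_of_mem hx,
            ← ih _ ((erase_subset _ _).trans hT)]
          congr 1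
          ext f
          simp only [mem_filter, mem_univ, true_and, cnt_cons, mem_erase]
          refine forall₂_congr fun a _ => ?_
          by_cases h : π x = a
          · subst h
            simp [hx]
          · have h' : a ≠ π x := fun e => h e.symm
            simp [h, h']
        · rw [if_neg (not_not.2 hV), if_neg hx, add_zero, card_eq_zero, filter_eq_empty_iff]
          intro f _ h
          have := h _ hV
          simp [cnt_cons, hx] at this
      · rw [if_pos hV, if_neg (fun h => hV (hT h)), add_zero, ← ih T hT]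
        congr 1
        ext f
        simp only [mem_filter, mem_univ, true_and, cnt_cons]
        refine forall₂_congr fun a ha => ?_
        have h : π x ≠ a := fun e => hV (e ▸ ha)
        simp [h]
    rw [sum_congr rfl fun x _ => key x, sum_add_distrib, sum_comm, ← sum_filter, sum_const,
      smul_eq_mul]
    have h2 : ∀ b ∈ T, (∑ x : X, if π x = b then n.descFactorial (#T - 1) *
        (∏ a ∈ T.erase b, #{x | π x = a}) * #{x | π x ∉ V} ^ (n - (#T - 1)) else 0) =
        n.descFactorial (#T - 1) * (∏ a ∈ T, #{x | π x = a}) *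
          #{x | π x ∉ V} ^ (n - (#T - 1)) := by
      intro b hb
      rw [← sum_filter, sum_const, smul_eq_mul, ← mul_prod_erase T _ hb]
      ring
    rw [sum_congr rfl h2, sum_const, smul_eq_mul]
    generalize #T = k
    generalize (∏ a ∈ T, #{x | π x = a}) = c
    generalize #{x | π x ∉ V} = D
    rcases k with _ | k
    · simp [pow_succ]
      ring
    · have e1 : (n + 1).descFactorial (k + 1) =
          n.descFactorial (k + 1) + (k + 1) * n.descFactorial k := by
        rw [Nat.succ_descFactorial_succ, Nat.descFactorial_succ]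
        rcases le_or_gt k n with h | h
        · obtain ⟨m, rfl⟩ := Nat.exists_eq_add_of_le h
          rw [Nat.add_sub_cancel_left]
          ring
        · rw [Nat.descFactorial_of_lt h]
          simp
      rw [e1, Nat.add_sub_cancel, Nat.add_sub_add_right]
      rcases lt_or_ge n (k + 1) with h | h
      · rw [Nat.descFactorial_of_lt h]
        ring
      · obtain ⟨m, rfl⟩ := Nat.exists_eq_add_of_le h
        have : k + 1 + m - k = m + 1 := by omega
        rw [Nat.add_sub_cancel_left, this]
        ring

omit [Fintype X] [DecidableEq X] in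
theorem lonely_iff (π : X → A) {n : ℕ} (f : Fin n → X) (s : Finset A) (hs : ∀ x, π x ∈ s) :
    (∃ i, ∀ j, j ≠ i → π (f j) ≠ π (f i)) ↔ ∃ a ∈ s, cnt π f a = 1 := by
  have hc : ∀ a, cnt π f a = #{i | π (f i) = a} := fun a => by
    rw [cnt, card_eq_sum_ones, sum_filter]
  constructor
  · rintro ⟨i, hi⟩
    refine ⟨π (f i), hs _, ?_⟩
    rw [hc, card_eq_one]
    refine ⟨i, ?_⟩
    ext j
    simp only [mem_filter, mem_univ, true_and, mem_singleton]
    exact ⟨fun h => by_contra fun h' => hi j h' h, fun h => h ▸ rfl⟩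
  · rintro ⟨a, -, ha⟩
    rw [hc, card_eq_one] at ha
    obtain ⟨i, hi⟩ := ha
    have h : ∀ j, π (f j) = a ↔ j = i := fun j => by
      have := congrArg (j ∈ ·) hi
      simpa using this
    refine ⟨i, fun j hj e => hj ?_⟩
    rw [← h, e, h]

/-- Inclusion and exclusion over the sites. -/
theorem card_lonely (π : X → A) (n : ℕ) (s : Finset A) (hs : ∀ x, π x ∈ s) (c : A → ℕ)
    (hc : ∀ a ∈ s, #{x | π x = a} = c a) :
    (#{f : Fin n → X | ∃ i, ∀ j, j ≠ i → π (f j) ≠ π (f i)} : ℤ) =
      (Fintype.card X : ℤ) ^ n - ∑ T ∈ s.powerset, (-1 : ℤ) ^ #T *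
        ((n.descFactorial #T * (∏ a ∈ T, c a) * (∑ a ∈ s \ T, c a) ^ (n - #T) : ℕ) : ℤ) := by
  have h1 := inclusion_exclusion_card_inf_compl s
    (fun a => ({f | cnt π f a = 1} : Finset (Fin n → X)))
  have h2 : ∀ T ∈ s.powerset, (-1 : ℤ) ^ #T *
      (#(T.inf fun a => ({f | cnt π f a = 1} : Finset (Fin n → X))) : ℤ) = (-1 : ℤ) ^ #T *
        ((n.descFactorial #T * (∏ a ∈ T, c a) * (∑ a ∈ s \ T, c a) ^ (n - #T) : ℕ) : ℤ) := by
    intro T hT
    rw [mem_powerset] at hT
    have e1 : (T.inf fun a => ({f | cnt π f a = 1} : Finset (Fin n → X))) =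
        ({f : Fin n → X | ∀ a ∈ T, cnt π f a = if a ∈ T then 1 else 0} :
          Finset (Fin n → X)) := by
      ext f
      simp only [mem_inf, mem_filter, mem_univ, true_and]
      exact forall₂_congr fun a ha => by rw [if_pos ha]
    have e2 : #{x | π x ∉ T} = ∑ a ∈ s \ T, c a := by
      rw [card_eq_sum_card_fiberwise (f := π) (t := s \ T)]
      · refine sum_congr rfl fun a ha => ?_
        rw [← hc a (mem_sdiff.1 ha).1, filter_filter]
        congr 1
        ext x
        simp only [mem_filter, mem_univ, true_and, and_iff_right_iff_imp]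
        rintro rfl
        exact (mem_sdiff.1 ha).2
      · intro x hx
        simp only [coe_filter, mem_univ, true_and, Set.mem_ofPred_eq] at hx
        simp [hs x, hx]
    rw [e1, card_exact π T n T subset_rfl, e2, prod_congr rfl fun a ha => hc a (hT ha)]
  rw [← sum_congr rfl h2, ← h1]
  have h3 : (s.inf fun a => ({f | cnt π f a = 1} : Finset (Fin n → X))ᶜ) =
      ({f : Fin n → X | ∃ i, ∀ j, j ≠ i → π (f j) ≠ π (f i)} : Finset _)ᶜ := by
    ext f
    simp only [mem_inf, mem_compl, mem_filter, mem_univ, true_and, lonely_iff π f s hs,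
      not_exists, not_and]
  rw [h3, card_compl, Nat.cast_sub (card_le_univ _)]
  simp

end Pool.Agent.P.MP_ca7dc8_pr
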