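import Mathlib

/-! Two-sided estimates for the number of arrays with a lonely entry. -/

set_option autoImplicit false

open Finset

namespace Pool.Agent.P.MP_ca7dc8_pr.Dim

variable {Ω X : Type} [Fintype Ω] [DecidableEq Ω] [DecidableEq X] {n : ℕ}

/-- arrays with entry `i` in `C` and all other entries outside `C` -/
def box (C : Finset Ω) (i : Fin n) : Finset (Fin n → Ω) :=
  Fintype.piFinset fun j => if j = i then C else Cᶜ

theorem mem_box {C : Finset Ω} {i : Fin n} {ω : Fin n → Ω} :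
    ω ∈ box C i ↔ ω i ∈ C ∧ ∀ j, j ≠ i → ω j ∉ C := by
  rw [box, Fintype.mem_piFinset]
  refine ⟨fun h => ⟨by simpa using h i, fun j hj => by simpa [hj] using h j⟩, fun h j => ?_⟩
  by_cases hj : j = i
  · simpa [hj] using h.1
  · simpa [hj] using h.2 j hj

theorem card_box (C : Finset Ω) (i : Fin n) :
    #(box C i) = #C * (Fintype.card Ω - #C) ^ (n - 1) := by
  rw [box, Fintype.card_piFinset, ← mul_prod_erase univ _ (mem_univ i), if_pos rfl,
    prod_congr rfl (g := fun _ => Fintype.card Ω - #C) fun j hj => by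
      rw [if_neg (ne_of_mem_erase hj), card_compl]]
  simp

theorem lower (f : Ω → X) (C : Finset Ω) (hC : ∀ u ∈ C, ∀ w, f w = f u → w = u) :
    n * (#C * (Fintype.card Ω - #C) ^ (n - 1)) ≤
      #{ω : Fin n → Ω | ∃ i, ∀ j, j ≠ i → f (ω j) ≠ f (ω i)} := by
  have h1 : #(univ.biUnion fun i : Fin n => box C i) =
      n * (#C * (Fintype.card Ω - #C) ^ (n - 1)) := by
    rw [card_biUnion]
    · simp [card_box]
    · intro i _ j _ hij
      exact disjoint_left.2 fun ω h1 h2 => (mem_box.1 h2).2 i hij (mem_box.1 h1).1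
  rw [← h1]
  refine card_le_card fun ω hω => ?_
  obtain ⟨i, -, hi⟩ := mem_biUnion.1 hω
  obtain ⟨h2, h3⟩ := mem_box.1 hi
  refine mem_filter.2 ⟨mem_univ _, i, fun j hj h => h3 j hj ?_⟩
  rw [hC _ h2 _ h]
  exact h2

theorem upper (f : Ω → X) :
    #{ω : Fin n → Ω | ∃ i, ∀ j, j ≠ i → f (ω j) ≠ f (ω i)} ≤ ∑ x ∈ univ.image f,
      n * (#{w | f w = x} * (Fintype.card Ω - #{w | f w = x}) ^ (n - 1)) := by
  calc _ ≤ #((univ.image f).biUnion fun x => univ.biUnion fun i : Fin n =>
        box ({w | f w = x} : Finset Ω) i) := by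
        refine card_le_card fun ω hω => ?_
        obtain ⟨-, i, hi⟩ := mem_filter.1 hω
        refine mem_biUnion.2 ⟨f (ω i), mem_image_of_mem _ (mem_univ _),
          mem_biUnion.2 ⟨i, mem_univ _, mem_box.2 ⟨by simp, fun j hj => by simpa using hi j hj⟩⟩⟩
    _ ≤ _ := by
        refine card_biUnion_le.trans (sum_le_sum fun x _ => card_biUnion_le.trans ?_)
        simp [card_box]

/-- the normalised term -/
theorem term_eq {m c : ℕ} (hn : 1 ≤ n) (hm : 0 < m) (hc : c ≤ m) :
    ((n * (c * (m - c) ^ (n - 1)) : ℕ) : ℝ) / (m : ℝ) ^ n =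
      n * (c / m) * (1 - (c : ℝ) / m) ^ (n - 1) := by
  obtain ⟨k, rfl⟩ : ∃ k, n = k + 1 := ⟨n - 1, by omega⟩
  have h0 : (m : ℝ) ≠ 0 := by positivity
  rw [Nat.add_sub_cancel, one_sub_div h0, div_pow]
  push_cast [Nat.cast_sub hc]
  field_simp
  ring

theorem term_le_self {r : ℝ} (h0 : 0 ≤ r) (h1 : r ≤ 1) : n * r * (1 - r) ^ (n - 1) ≤ n * r :=
  mul_le_of_le_one_right (by positivity) (pow_le_one₀ (by linarith) (by linarith))

theorem term_le_tail {r y : ℝ} (hn : 2 ≤ n) (h1 : r ≤ 1) (hy : 0 < y) (hz : y ≤ n * r) (k : ℕ) :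
    n * r * (1 - r) ^ (n - 1) ≤ (k + 1).factorial * 2 ^ (k + 1) / y ^ k := by
  have hn' : (2 : ℝ) ≤ n := by exact_mod_cast hn
  have hz0 : 0 < n * r := hy.trans_le hz
  have h0 : 0 < r := by
    by_contra hr
    nlinarith [not_lt.1 hr]
  have h2 : (1 - r) ^ (n - 1) ≤ Real.exp (-(n * r / 2)) := by
    refine (pow_le_pow_left₀ (by linarith) (Real.one_sub_le_exp_neg r) _).trans ?_
    rw [← Real.exp_nat_mul, Real.exp_le_exp, Nat.cast_sub (by omega), Nat.cast_one]
    nlinarith
  have h3 := Real.pow_div_factorial_le_exp (n * r / 2) (by positivity) (k + 1)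
  have h4 : Real.exp (-(n * r / 2)) ≤ (k + 1).factorial / (n * r / 2) ^ (k + 1) := by
    rw [Real.exp_neg]
    exact (inv_anti₀ (by positivity) h3).trans_eq (inv_div _ _)
  calc n * r * (1 - r) ^ (n - 1) ≤ n * r * ((k + 1).factorial / (n * r / 2) ^ (k + 1)) :=
        mul_le_mul_of_nonneg_left (h2.trans h4) hz0.le
    _ = (k + 1).factorial * 2 ^ (k + 1) / (n * r) ^ k := by
        rw [div_pow]
        field_simp
        ring
    _ ≤ _ := by gcongr

theorem term_ge {r : ℝ} (hn : 1 ≤ n) (h0 : 0 ≤ r) (h : n * r ≤ 1 / 4) :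
    3 / 4 * (n * r) ≤ n * r * (1 - r) ^ (n - 1) := by
  have hn' : (1 : ℝ) ≤ n := by exact_mod_cast hn
  have h1 := one_add_mul_le_pow (a := -r) (by nlinarith) (n - 1)
  rw [Nat.cast_sub hn, Nat.cast_one, ← sub_eq_add_neg] at h1
  have h2 : 3 / 4 ≤ (1 - r) ^ (n - 1) := by nlinarith
  rw [mul_comm]
  exact mul_le_mul_of_nonneg_left h2 (by positivity)

/-- a word has at least as many rearrangements as letters different from a given one -/
theorem card_swap {A : Type} [Fintype A] [DecidableEq A] {T : ℕ} (f : (Fin T → A) → X)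
    (hf : ∀ (w : Fin T → A) (σ : Equiv.Perm (Fin T)), f (w ∘ σ) = f w) (w : Fin T → A)
    (a : Fin T) : #{k | w k ≠ w a} ≤ #{v | f v = f w} := by
  refine card_le_card_of_injOn (fun k => w ∘ Equiv.swap a k) (fun k _ => by simp [hf]) ?_
  intro k hk k' _ h
  by_contra hne
  have hk' : w k ≠ w a := by simpa using hk
  have h1 := congrFun h k
  simp only [Function.comp, Equiv.swap_apply_right] at h1
  rw [Equiv.swap_apply_of_ne_of_ne (fun e => hk' (by rw [e])) hne] at h1
  exact hk' h1.symm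

theorem two_card {A : Type} [Fintype A] [DecidableEq A] {T : ℕ} (f : (Fin T → A) → X)
    (hf : ∀ (w : Fin T → A) (σ : Equiv.Perm (Fin T)), f (w ∘ σ) = f w) (w : Fin T → A)
    {a b : Fin T} (h : w a ≠ w b) : T ≤ 2 * #{v | f v = f w} := by
  have h1 := card_swap f hf w a
  have h2 := card_swap f hf w b
  have h3 : (univ : Finset (Fin T)) ⊆
      (univ.filter fun k => w k ≠ w a) ∪ univ.filter fun k => w k ≠ w b := fun k _ => by
    by_cases e : w k = w a
    · simp [e, h]
    · simp [e]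
  have h4 := (card_le_card h3).trans (card_union_le _ _)
  rw [card_univ, Fintype.card_fin] at h4
  omega

end Pool.Agent.P.MP_ca7dc8_pr.Dim
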